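import Pool.Agent.H93.FB.Targets

/-!
# Fibration lemma: total space, null-homotopic loops, homotopy fibres
-/

set_option autoImplicit false

open Topology Set
open scoped unitInterval ContinuousMap
open Pool.Agent.H59 Pool.Agent.H64.LB Pool.Agent.H93.FB

namespace Pool.Agent.H90.FB

noncomputable section

theorem eec : T_EEC := by
  intro A B _ _ f
  refine ⟨?_, ?_⟩
  · let inv : C(A, EE f) := EE.fam (ContinuousMap.id A) (f.comp ⟨Prod.fst, continuous_fst⟩)
      (fun _ => rfl)
    let g : C((I × EE f) × I, B) := (EE.ev f).comp ⟨fun q => (q.1.2, q.1.1 * q.2), by fun_prop⟩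
    let H : C(I × EE f, EE f) := EE.fam ((EE.pa f).comp ⟨Prod.snd, continuous_snd⟩) g (by
      rintro ⟨s, e⟩
      change e.1.2 (s * 0) = f e.1.1
      rw [mul_zero]
      exact e.2)
    refine ⟨⟨EE.pa f, inv, ⟨⟨H, ?_, ?_⟩⟩, ?_⟩, rfl⟩
    · intro e
      refine EE.ext' rfl (fun t => ?_)
      change e.1.2 (0 * t) = f e.1.1
      rw [zero_mul]
      exact e.2
    · intro e
      refine EE.ext' rfl (fun t => ?_)
      change e.1.2 (1 * t) = e.1.2 t
      rw [one_mul]
    · have : (EE.pa f).comp inv = ContinuousMap.id A := ContinuousMap.ext fun _ => rfl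
      rw [this]
  · refine ⟨⟨(EE.ev f).comp ⟨fun p : I × EE f => (p.2, σ p.1), by fun_prop⟩, ?_, ?_⟩⟩
    · intro e
      change e.1.2 (σ 0) = e.1.2 1
      rw [unitInterval.symm_zero]
    · intro e
      change e.1.2 (σ 1) = f e.1.1
      rw [unitInterval.symm_one]
      exact e.2

theorem one_iff {Y : Type} [TopologicalSpace Y] {y0 z : Y} (p : Path y0 z) :
    ((⟨z, Path.Homotopic.Quotient.mk p⟩ : BT y0) = BT.one y0) ↔
      ∃ h : z = y0, (p.cast rfl h.symm).Homotopic (Path.refl y0) := by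
  refine (BT.ext_iff' (b0 := y0) (x := (⟨z, Path.Homotopic.Quotient.mk p⟩ : BT y0))
    (y := BT.one y0)).trans ?_
  constructor
  · rintro ⟨h, h'⟩
    change z = y0 at h
    subst h
    refine ⟨rfl, ?_⟩
    have h2 : Path.Homotopic.Quotient.mk p = Path.Homotopic.Quotient.mk (Path.refl z) :=
      (Path.Homotopic.Quotient.cast_rfl_rfl (Path.Homotopic.Quotient.mk p)).symm.trans h'
    exact Path.Homotopic.Quotient.eq.1 h2
  · rintro ⟨h, h'⟩
    subst h
    exact ⟨rfl, (Path.Homotopic.Quotient.cast_rfl_rfl (Path.Homotopic.Quotient.mk p)).trans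
      (Path.Homotopic.Quotient.eq.2 h')⟩

theorem clf_const {Y : Type} [TopologicalSpace Y] {y0 : Y}
    (e : EE (ContinuousMap.const PUnit.{1} y0)) :
    clf (ContinuousMap.const PUnit.{1} y0) PUnit.unit e = BT.one y0 ↔
      ∃ h : EE.endp _ e = y0, ((EE.pth e).cast rfl h.symm : Path y0 y0).Homotopic (Path.refl y0) := by
  have h1 : clf (ContinuousMap.const PUnit.{1} y0) PUnit.unit e =
      (⟨EE.endp _ e, Path.Homotopic.Quotient.mk (EE.pth e)⟩ : BT y0) := by
    unfold clf
    have h2 : Path.Homotopic.Quotient.mk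
        ((PathConnectedSpace.somePath PUnit.unit (EE.pa (ContinuousMap.const PUnit.{1} y0) e)).map
          (ContinuousMap.const PUnit.{1} y0).continuous) = Path.Homotopic.Quotient.refl y0 := rfl
    rw [h2]
    congr 1
    exact Path.Homotopic.Quotient.refl_trans _
  rw [h1]
  exact one_iff (z := EE.endp _ e) (EE.pth e)

theorem fnl : T_FNL := by
  intro Y _ y0
  have key := fun e => clf_const (y0 := y0) e
  refine ⟨⟨⟨fun x => ⟨⟨x.1.1.2, x.1.2, ((key x.1).1 x.2).choose⟩, ?_⟩,
    fun l => ⟨⟨(PUnit.unit, l.1.toContinuousMap), l.1.source⟩, ?_⟩, fun x => ?_, fun l => ?_⟩,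
    ?_, ?_⟩⟩
  · exact ((key x.1).1 x.2).choose_spec
  · refine (key _).2 ⟨l.1.target, ?_⟩
    have e : ((EE.pth (f := ContinuousMap.const PUnit.{1} y0)
        ⟨(PUnit.unit, l.1.toContinuousMap), l.1.source⟩).cast rfl l.1.target.symm :
        Path y0 y0) = l.1 := by
      ext t
      rfl
    exact e ▸ l.2
  · rfl
  · rfl
  · refine Continuous.subtype_mk (continuous_induced_rng.2 ?_) _
    change Continuous fun x : F0 (ContinuousMap.const PUnit.{1} y0) PUnit.unit => x.1.1.2
    exact continuous_snd.comp (continuous_subtype_val.comp continuous_subtype_val)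
  · refine Continuous.subtype_mk (Continuous.subtype_mk (continuous_const.prodMk ?_) _) _
    exact (continuous_induced_dom : Continuous (fun p : Path y0 y0 => (p : C(I, Y)))).comp
      continuous_subtype_val

theorem ffi : T_FFI := by
  intro A B _ _ _ _ f a0
  refine ⟨⟨⟨fun x => ⟨x.1.1, x.1.2, F0.endp_eq f a0 x⟩, fun p => ⟨⟨p.1, p.2.1⟩, ?_⟩,
    fun x => rfl, fun p => rfl⟩, ?_, ?_⟩⟩
  · exact BT.ext_iff'.2 ⟨p.2.2, Subsingleton.elim _ _⟩
  · exact Continuous.subtype_mk (continuous_subtype_val.comp continuous_subtype_val) _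
  · exact Continuous.subtype_mk (Continuous.subtype_mk continuous_subtype_val _) _

end

end Pool.Agent.H90.FB
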